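import Pool.Agent.Run7.h716.ZW.Alg

/-! Piece LLC of project ZW (helper716), by helper939. -/

set_option autoImplicit false

namespace Run7.h939.ZW

open Filter Run7.h716.ZW

theorem t_LLC : S_LLC := by
  intro F hF b hb R
  obtain ⟨A, hA⟩ := hb
  have h1 : ∀ᶠ j in atTop, ∀ c ∈ A, ∀ k k' : ℤ, 0 < lf c (F j) k → lf c (F j) k' < 0 →
      (R : ℤ) < |k - k'| :=
    (Filter.eventually_all_finset A).2 fun c _ => hF.2 c R
  filter_upwards [h1, hA R] with j hj hj' k k' hk hk'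
  by_contra hcon
  rw [not_lt] at hcon
  rw [abs_le] at hcon
  obtain ⟨c, hc, hb⟩ := hj' (min k k')
  have e1 : b j k = lf c (F j) k := hb k (min_le_left _ _) (by
    rcases min_cases k k' with ⟨h, _⟩ | ⟨h, _⟩ <;> rw [h] <;> omega)
  have e2 : b j k' = lf c (F j) k' := hb k' (min_le_right _ _) (by
    rcases min_cases k k' with ⟨h, _⟩ | ⟨h, _⟩ <;> rw [h] <;> omega)
  have h2 := hj c hc k k' (e1 ▸ hk) (e2 ▸ hk')
  have h3 := abs_le.2 hcon
  omega

end Run7.h939.ZW
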